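import Mathlib

/-!
# `k`-edges and one moving set: the combinatorial part

* `orient p q s`: twice the signed area of the triangle `p q s` (positive iff `s` is strictly to the left of
  the directed line from `p` to `q`),
* `IsEdge X k i j`: `X i ≠ X j`, exactly `k` of the `n` points `X l` are strictly to the left of the directed
  line from `X i` to `X j` and exactly `n - 2 - k` are strictly to the right (a directed `k`-edge),
* `shift y A z`: the points `y l`, those with `l ∈ A` moved by the vector `z`.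
-/

namespace Pool.Agent.H56.RP

open Finset

/-- Twice the signed area of the triangle `p q s`. -/
def orient (p q s : ℝ × ℝ) : ℝ := (q.1 - p.1) * (s.2 - p.2) - (q.2 - p.2) * (s.1 - p.1)

variable {n : ℕ}

/-- `(i, j)` is a directed `k`-edge of the points `X l`. -/
def IsEdge (X : Fin n → ℝ × ℝ) (k : ℕ) (i j : Fin n) : Prop :=
  X i ≠ X j ∧ #{l | 0 < orient (X i) (X j) (X l)} = k ∧
    #{l | orient (X i) (X j) (X l) < 0} + k + 2 = n

/-- The points `y l`, those with `l ∈ A` moved by `z`. -/
def shift (y : Fin n → ℝ × ℝ) (A : Finset (Fin n)) (z : ℝ × ℝ) (l : Fin n) : ℝ × ℝ :=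
  y l + if l ∈ A then z else 0

theorem orient_rev (p q s : ℝ × ℝ) : orient q p s = -orient p q s := by
  simp only [orient]; ring

theorem orient_swap (p q s : ℝ × ℝ) : orient p.swap q.swap s.swap = -orient p q s := by
  simp only [orient, Prod.fst_swap, Prod.snd_swap]; ring

theorem isEdge_rev {X : Fin n → ℝ × ℝ} {k : ℕ} {i j : Fin n} (h : IsEdge X k j i) :
    k + 2 ≤ n ∧ IsEdge X (n - 2 - k) i j := by
  obtain ⟨h0, h1, h2⟩ := h
  simp only [orient_rev (X i) (X j), Left.neg_pos_iff, Left.neg_neg_iff] at h1 h2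
  refine ⟨by omega, h0.symm, by omega, ?_⟩
  omega

theorem isEdge_swap {X : Fin n → ℝ × ℝ} {k : ℕ} {i j : Fin n} (h : IsEdge X k i j) :
    k + 2 ≤ n ∧ IsEdge (fun l => (X l).swap) (n - 2 - k) i j := by
  obtain ⟨h0, h1, h2⟩ := h
  refine ⟨by omega, fun e => h0 (Prod.swap_injective e), ?_, ?_⟩
  · simp only [orient_swap, Left.neg_pos_iff]; omega
  · simp only [orient_swap, Left.neg_neg_iff]; omega

theorem uniq {H : Fin n → ℝ} {S T : Finset (Fin n)} {a b : ℕ} (h : #S + #T = a + b + 2)
    {i j j' : Fin n} (hi : i ∈ S) (hj : j ∈ T) (hj' : j' ∈ T)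
    (h1 : #{l ∈ S | H i < H l} + #{l ∈ T | H j < H l} = a)
    (h2 : #{l ∈ S | H l < H i} + #{l ∈ T | H l < H j} = b)
    (h1' : #{l ∈ S | H i < H l} + #{l ∈ T | H j' < H l} = a) : j = j' := by
  by_contra hne
  have hS : #{l ∈ S | H i < H l} + #{l ∈ S | H l < H i} ≤ #S - 1 := by
    rw [← card_union_of_disjoint, ← card_erase_of_mem hi]
    · refine card_le_card fun l hl => ?_
      simp only [mem_union, mem_filter] at hl
      refine mem_erase.2 ⟨?_, by tauto⟩
      rintro rfl
      simp at hl
    · exact disjoint_filter.2 fun l _ h h' => lt_asymm h h'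
  have hS1 : 1 ≤ #S := card_pos.2 ⟨i, hi⟩
  rcases lt_trichotomy (H j) (H j') with hlt | heq | hlt
  · have : #{l ∈ T | H j' < H l} < #{l ∈ T | H j < H l} := by
      refine card_lt_card ⟨fun l hl => ?_, fun hsub => ?_⟩
      · simp only [mem_filter] at hl ⊢
        exact ⟨hl.1, hlt.trans hl.2⟩
      · have := hsub (mem_filter.2 ⟨hj', hlt⟩)
        simp at this
    omega
  · have hT : #{l ∈ T | H j < H l} + #{l ∈ T | H l < H j} ≤ #T - 2 := by
      have e : #((T.erase j).erase j') = #T - 2 := by
        rw [card_erase_of_mem (mem_erase.2 ⟨fun e => hne e.symm, hj'⟩), card_erase_of_mem hj]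
        omega
      rw [← card_union_of_disjoint, ← e]
      · refine card_le_card fun l hl => ?_
        simp only [mem_union, mem_filter] at hl
        refine mem_erase.2 ⟨?_, mem_erase.2 ⟨?_, by tauto⟩⟩
        · rintro rfl
          simp [heq] at hl
        · rintro rfl
          simp at hl
      · exact disjoint_filter.2 fun l _ h h' => lt_asymm h h'
    have hT2 : 2 ≤ #T := by
      have := card_le_card (show {j, j'} ⊆ T by
        intro l hl
        simp only [mem_insert, mem_singleton] at hl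
        rcases hl with rfl | rfl <;> assumption)
      rwa [card_pair hne] at this
    omega
  · have : #{l ∈ T | H j < H l} < #{l ∈ T | H j' < H l} := by
      refine card_lt_card ⟨fun l hl => ?_, fun hsub => ?_⟩
      · simp only [mem_filter] at hl ⊢
        exact ⟨hl.1, hlt.trans hl.2⟩
      · have := hsub (mem_filter.2 ⟨hj, hlt⟩)
        simp at this
    omega

/-- The pairs `(i, j)` for which `i`, `j` have together the rank `a` from above and `b` from below. -/
theorem card_lev_le (H : Fin n → ℝ) (A B : Finset (Fin n)) (hAB : Disjoint B A) {a b : ℕ} (h : a + b + 2 = n)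
    (R : Fin n × Fin n → Prop) [DecidablePred R]
    (hR : ∀ p, R p → #{l ∈ Aᶜ | H p.1 < H l} + #{l ∈ A | H p.2 < H l} = a ∧
      #{l ∈ Aᶜ | H l < H p.1} + #{l ∈ A | H l < H p.2} = b) :
    #{p ∈ B ×ˢ A | R p} ≤ min #A #B := by
  have hc : #Aᶜ + #A = a + b + 2 := by
    rw [card_compl, Fintype.card_fin]
    have := card_le_univ A
    rw [Fintype.card_fin] at this
    omega
  have hBc : ∀ i ∈ B, i ∈ Aᶜ := fun i hi => mem_compl.2 fun hA => (disjoint_left.1 hAB hi hA)
  refine le_min ?_ ?_
  · refine card_le_card_of_injOn Prod.snd (fun p hp => ?_) ?_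
    · simp only [coe_filter, mem_product, Set.mem_ofPred_eq] at hp
      exact hp.1.2
    · rintro ⟨i, j⟩ hp ⟨i', j'⟩ hp' (e : j = j')
      subst e
      simp only [coe_filter, mem_product, Set.mem_ofPred_eq] at hp hp'
      obtain ⟨h1, h2⟩ := hR _ hp.2
      obtain ⟨h1', h2'⟩ := hR _ hp'.2
      have := uniq (S := A) (T := Aᶜ) (H := H) (a := a) (b := b) (by omega) hp.1.2 (hBc _ hp.1.1)
        (hBc _ hp'.1.1) (by simpa [add_comm] using h1) (by simpa [add_comm] using h2)
        (by simpa [add_comm] using h1')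
      rw [this]
  · refine card_le_card_of_injOn Prod.fst (fun p hp => ?_) ?_
    · simp only [coe_filter, mem_product, Set.mem_ofPred_eq] at hp
      exact hp.1.1
    · rintro ⟨i, j⟩ hp ⟨i', j'⟩ hp' (e : i = i')
      subst e
      simp only [coe_filter, mem_product, Set.mem_ofPred_eq] at hp hp'
      obtain ⟨h1, h2⟩ := hR _ hp.2
      obtain ⟨h1', h2'⟩ := hR _ hp'.2
      have := uniq (S := Aᶜ) (T := A) (H := H) (a := a) (b := b) hc (hBc _ hp.1.1) hp.1.2
        hp'.1.2 h1 h2 h1'
      rw [this]

/-- The orientation in terms of the heights `p.2 - m * p.1`. -/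
theorem orient_shift (y : Fin n → ℝ × ℝ) (A : Finset (Fin n)) (z : ℝ × ℝ) (m : ℝ) {i j : Fin n} (hi : i ∉ A)
    (hj : j ∈ A) (hm : (shift y A z j).2 - (shift y A z i).2 =
      m * ((shift y A z j).1 - (shift y A z i).1)) (l : Fin n) :
    orient (shift y A z i) (shift y A z j) (shift y A z l) =
      ((shift y A z j).1 - (shift y A z i).1) *
        if l ∈ A then ((y l).2 - m * (y l).1) - ((y j).2 - m * (y j).1)
        else ((y l).2 - m * (y l).1) - ((y i).2 - m * (y i).1) := by
  simp only [shift, hi, hj, if_true, if_false, orient, Prod.fst_add, Prod.snd_add, add_zero] at hm ⊢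
  by_cases hl : l ∈ A
  · simp only [hl, if_true]
    rw [hm]
    linear_combination ((y j).1 + z.1 - (y i).1) * hm
  · simp only [hl, if_false, Prod.fst_zero, Prod.snd_zero, add_zero]
    rw [hm]
    ring

/-- The number of the pairs that form a `k`-edge with a fixed slope, over all the shifts of `A`. -/
theorem card_slope (y : Fin n → ℝ × ℝ) (A B : Finset (Fin n)) (hAB : Disjoint B A) (k : ℕ) (m : ℝ)
    (z : Fin n × Fin n → ℝ × ℝ) (R : Fin n × Fin n → Prop) [DecidablePred R]
    (hR : ∀ p, p.1 ∉ A → p.2 ∈ A → R p → IsEdge (shift y A (z p)) k p.1 p.2 ∧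
      (shift y A (z p) p.2).1 ≠ (shift y A (z p) p.1).1 ∧
      (shift y A (z p) p.2).2 - (shift y A (z p) p.1).2 =
        m * ((shift y A (z p) p.2).1 - (shift y A (z p) p.1).1)) :
    #{p ∈ B ×ˢ A | R p} ≤ 2 * min #A #B := by
  classical
  by_cases hk : k + 2 ≤ n
  swap
  · have : #{p ∈ B ×ˢ A | R p} = 0 := by
      refine card_eq_zero.2 (filter_eq_empty_iff.2 fun p hp hRp => ?_)
      rw [mem_product] at hp
      obtain ⟨⟨_, _, h3⟩, _⟩ := hR p (disjoint_left.1 hAB hp.1) hp.2 hRp
      omega
    omega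
  set H : Fin n → ℝ := fun l => (y l).2 - m * (y l).1 with hH
  have key : ∀ p, p.1 ∉ A → p.2 ∈ A → R p →
      (0 < (shift y A (z p) p.2).1 - (shift y A (z p) p.1).1 →
        #{l ∈ Aᶜ | H p.1 < H l} + #{l ∈ A | H p.2 < H l} = k ∧
        #{l ∈ Aᶜ | H l < H p.1} + #{l ∈ A | H l < H p.2} = n - 2 - k) ∧
      (¬ 0 < (shift y A (z p) p.2).1 - (shift y A (z p) p.1).1 →
        #{l ∈ Aᶜ | H p.1 < H l} + #{l ∈ A | H p.2 < H l} = n - 2 - k ∧
        #{l ∈ Aᶜ | H l < H p.1} + #{l ∈ A | H l < H p.2} = k) := by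
    intro p h1 h2 hRp
    obtain ⟨⟨_, he1, he2⟩, hne, hm⟩ := hR p h1 h2 hRp
    have ho := orient_shift y A (z p) m h1 h2 hm
    have split : ∀ (P : Fin n → Prop) [DecidablePred P] (Q : Fin n → Prop) [DecidablePred Q],
        #{l | if l ∈ A then Q l else P l} = #{l ∈ Aᶜ | P l} + #{l ∈ A | Q l} := by
      intro P _ Q _
      rw [← card_union_of_disjoint]
      · congr 1
        ext l
        by_cases hl : l ∈ A <;> simp [hl]
      · rw [disjoint_left]
        intro l hl hl'
        simp only [mem_filter, mem_compl] at hl hl'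
        exact hl.1 hl'.1
    constructor
    · intro hd
      have e1 : #{l | 0 < orient (shift y A (z p) p.1) (shift y A (z p) p.2) (shift y A (z p) l)} =
          #{l ∈ Aᶜ | H p.1 < H l} + #{l ∈ A | H p.2 < H l} := by
        rw [← split]
        congr 1
        ext l
        simp only [mem_filter, mem_univ, true_and, ho l, mul_pos_iff_of_pos_left hd]
        by_cases hl : l ∈ A <;> simp [hl, hH]
      have e2 : #{l | orient (shift y A (z p) p.1) (shift y A (z p) p.2) (shift y A (z p) l) < 0} =
          #{l ∈ Aᶜ | H l < H p.1} + #{l ∈ A | H l < H p.2} := by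
        rw [← split]
        congr 1
        ext l
        simp only [mem_filter, mem_univ, true_and, ho l, mul_neg_iff, hd, not_lt.2 hd.le,
          false_and, or_false]
        by_cases hl : l ∈ A <;> simp [hl, hH]
      omega
    · intro hd
      have hd : (shift y A (z p) p.2).1 - (shift y A (z p) p.1).1 < 0 :=
        lt_of_le_of_ne (not_lt.1 hd) (sub_ne_zero.2 hne)
      have e1 : #{l | 0 < orient (shift y A (z p) p.1) (shift y A (z p) p.2) (shift y A (z p) l)} =
          #{l ∈ Aᶜ | H l < H p.1} + #{l ∈ A | H l < H p.2} := by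
        rw [← split]
        congr 1
        ext l
        simp only [mem_filter, mem_univ, true_and, ho l, mul_pos_iff, hd, not_lt.2 hd.le,
          false_and, true_and, false_or]
        by_cases hl : l ∈ A <;> simp [hl, hH]
      have e2 : #{l | orient (shift y A (z p) p.1) (shift y A (z p) p.2) (shift y A (z p) l) < 0} =
          #{l ∈ Aᶜ | H p.1 < H l} + #{l ∈ A | H p.2 < H l} := by
        rw [← split]
        congr 1
        ext l
        simp only [mem_filter, mem_univ, true_and, ho l, mul_neg_iff, hd, not_lt.2 hd.le,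
          false_and, true_and, false_or]
        by_cases hl : l ∈ A <;> simp [hl, hH]
      omega
  have hA : ∀ p ∈ B ×ˢ A, p.1 ∉ A ∧ p.2 ∈ A := fun p hp => by
    rw [mem_product] at hp
    exact ⟨disjoint_left.1 hAB hp.1, hp.2⟩
  rw [two_mul, ← card_filter_add_card_filter_not (s := {p ∈ B ×ˢ A | R p})
    (fun p => 0 < (shift y A (z p) p.2).1 - (shift y A (z p) p.1).1), filter_filter, filter_filter]
  refine add_le_add ?_ ?_
  · have : {p ∈ B ×ˢ A | R p ∧ 0 < (shift y A (z p) p.2).1 - (shift y A (z p) p.1).1} =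
        {p ∈ B ×ˢ A | p.1 ∉ A ∧ p.2 ∈ A ∧ R p ∧
          0 < (shift y A (z p) p.2).1 - (shift y A (z p) p.1).1} :=
      filter_congr fun p hp => by have := hA p hp; tauto
    rw [this]
    exact card_lev_le H A B hAB (a := k) (b := n - 2 - k) (by omega) _
      fun p hp => (key p hp.1 hp.2.1 hp.2.2.1).1 hp.2.2.2
  · have : {p ∈ B ×ˢ A | R p ∧ ¬ 0 < (shift y A (z p) p.2).1 - (shift y A (z p) p.1).1} =
        {p ∈ B ×ˢ A | p.1 ∉ A ∧ p.2 ∈ A ∧ R p ∧
          ¬ 0 < (shift y A (z p) p.2).1 - (shift y A (z p) p.1).1} :=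
      filter_congr fun p hp => by have := hA p hp; tauto
    rw [this]
    exact card_lev_le H A B hAB (a := n - 2 - k) (b := k) (by omega) _
      fun p hp => (key p hp.1 hp.2.1 hp.2.2.1).2 hp.2.2.2

end Pool.Agent.H56.RP
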