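import Pool.Agent.H56.RP.Comb

/-!
# `k`-edges and one moving set: the integral over the translation

`lintegral_core`: if the set `A` is moved by a random vector with a bounded density, then the expected number of
the directed `k`-edges from a fixed set `B` to `A` is at most `16 κ (D / r) min (|A|, |B|)`.
-/

namespace Pool.Agent.H56.RP

open Finset MeasureTheory
open scoped ENNReal

variable {n : ℕ}

theorem measurable_orient {α : Type*} [MeasurableSpace α] {f g h : α → ℝ × ℝ} (hf : Measurable f)
    (hg : Measurable g) (hh : Measurable h) : Measurable fun a => orient (f a) (g a) (h a) := by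
  unfold orient
  fun_prop

theorem measurableSet_isEdge {α : Type*} [MeasurableSpace α] {X : α → Fin n → ℝ × ℝ}
    (hX : ∀ l, Measurable fun a => X a l) (k : ℕ) (i j : Fin n) :
    MeasurableSet {a | IsEdge (X a) k i j} := by
  have h1 : Measurable fun a => #{l | 0 < orient (X a i) (X a j) (X a l)} := by
    simp_rw [card_filter]
    exact Finset.measurable_fun_sum _ fun l _ => Measurable.ite
      (measurableSet_lt measurable_const (measurable_orient (hX i) (hX j) (hX l)))
      measurable_const measurable_const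
  have h2 : Measurable fun a => #{l | orient (X a i) (X a j) (X a l) < 0} + k + 2 := by
    simp_rw [card_filter]
    refine Measurable.add_const (Measurable.add_const ?_ _) _
    exact Finset.measurable_fun_sum _ fun l _ => Measurable.ite
      (measurableSet_lt (measurable_orient (hX i) (hX j) (hX l)) measurable_const)
      measurable_const measurable_const
  have e : {a | IsEdge (X a) k i j} = {a | X a i = X a j}ᶜ ∩
      ({a | #{l | 0 < orient (X a i) (X a j) (X a l)} = k} ∩
        {a | #{l | orient (X a i) (X a j) (X a l) < 0} + k + 2 = n}) := by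
    ext a
    simp only [IsEdge, Set.mem_ofPred_eq, Set.mem_inter_iff, Set.mem_compl_iff, ne_eq]
  rw [e]
  exact (measurableSet_eq_fun (hX i) (hX j)).compl.inter
    ((h1 (measurableSet_singleton k)).inter (h2 (measurableSet_singleton n)))

theorem measurable_shift (y : Fin n → ℝ × ℝ) (A : Finset (Fin n)) (l : Fin n) :
    Measurable fun z => shift y A z l := by
  unfold shift
  by_cases hl : l ∈ A <;> simp only [hl, if_true, if_false]
  · fun_prop
  · fun_prop

/-- A flat edge: `|Δy| ≤ |Δx| ≤ D`. -/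
def IsFlat (y : Fin n → ℝ × ℝ) (A : Finset (Fin n)) (k : ℕ) (D : ℝ) (i j : Fin n) (z : ℝ × ℝ) : Prop :=
  IsEdge (shift y A z) k i j ∧
    |(shift y A z j).2 - (shift y A z i).2| ≤ |(shift y A z j).1 - (shift y A z i).1| ∧
    |(shift y A z j).1 - (shift y A z i).1| ≤ D

/-- A short edge: `|Δx| ≤ D` and `|Δy| ≤ D`. -/
def IsShort (y : Fin n → ℝ × ℝ) (A : Finset (Fin n)) (k : ℕ) (D : ℝ) (i j : Fin n) (z : ℝ × ℝ) : Prop :=
  IsEdge (shift y A z) k i j ∧ |(shift y A z j).1 - (shift y A z i).1| ≤ D ∧
    |(shift y A z j).2 - (shift y A z i).2| ≤ D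

open Classical in
/-- the indicator of a proposition -/
noncomputable def ind (P : Prop) : ℝ≥0∞ := if P then 1 else 0

theorem ind_le_one (P : Prop) : ind P ≤ 1 := by
  unfold ind
  split_ifs <;> simp

theorem ind_of_not {P : Prop} (h : ¬ P) : ind P = 0 := by simp [ind, h]

theorem ind_mono {P Q : Prop} (h : P → Q) : ind P ≤ ind Q := by
  unfold ind
  split_ifs with hp hq
  · exact le_rfl
  · exact absurd (h hp) hq
  · exact zero_le
  · exact zero_le

theorem measurable_ind {α : Type*} [MeasurableSpace α] {P : α → Prop} (h : MeasurableSet {a | P a}) :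
    Measurable fun a => ind (P a) := by
  classical
  have : (fun a => ind (P a)) = Set.indicator {a | P a} (fun _ => 1) := by
    funext a
    simp [ind, Set.indicator]
  rw [this]
  exact measurable_const.indicator h

theorem sum_ind_le {ι : Type*} (s : Finset ι) (P : ι → Prop) [DecidablePred P] :
    ∑ p ∈ s, ind (P p) = (#{p ∈ s | P p} : ℝ≥0∞) := by
  rw [card_filter]
  push_cast
  refine sum_congr rfl fun p _ => ?_
  unfold ind
  congr

theorem measurable_isFlat (y : Fin n → ℝ × ℝ) (A : Finset (Fin n)) (k : ℕ) (D : ℝ) (i j : Fin n) :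
    Measurable fun z => ind (IsFlat y A k D i j z) := by
  have hm := measurable_shift y A
  have h1 := ((hm j).fst.sub (hm i).fst).abs
  have h2 := ((hm j).snd.sub (hm i).snd).abs
  exact measurable_ind ((measurableSet_isEdge hm k i j).inter
    ((measurableSet_le h2 h1).inter (measurableSet_le h1 (measurable_const (a := D)))))

theorem measurable_isShort (y : Fin n → ℝ × ℝ) (A : Finset (Fin n)) (k : ℕ) (D : ℝ) (i j : Fin n) :
    Measurable fun z => ind (IsShort y A k D i j z) := by
  have hm := measurable_shift y A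
  have h1 := ((hm j).fst.sub (hm i).fst).abs
  have h2 := ((hm j).snd.sub (hm i).snd).abs
  exact measurable_ind ((measurableSet_isEdge hm k i j).inter
    ((measurableSet_le h1 (measurable_const (a := D))).inter
      (measurableSet_le h2 (measurable_const (a := D)))))

theorem lintegral_affine {g : ℝ → ℝ≥0∞} (hg : Measurable g) (c d : ℝ) (hd : d ≠ 0) :
    ∫⁻ w, g w = ENNReal.ofReal |d| * ∫⁻ m, g (c + d * m) := by
  have hg' : Measurable fun w => g (c + w) := hg.comp (measurable_const_add c)
  rw [← lintegral_add_left_eq_self g c]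
  conv_lhs => rw [← Real.smul_map_volume_mul_left hd]
  rw [lintegral_smul_measure, lintegral_map hg' (measurable_const_mul d), smul_eq_mul]

/-- The flat edges, for one vertical line of translations. -/
theorem lintegral_flat (y : Fin n → ℝ × ℝ) (A B : Finset (Fin n)) (hAB : Disjoint B A) (k : ℕ) {D : ℝ}
    (hD : 0 ≤ D) (u : ℝ) :
    ∫⁻ w, ∑ p ∈ B ×ˢ A, ind (IsFlat y A k D p.1 p.2 (u, w)) ≤
      ENNReal.ofReal (4 * D * (min #A #B : ℕ)) := by
  classical
  have hmeas : ∀ p : Fin n × Fin n, Measurable fun w : ℝ => ind (IsFlat y A k D p.1 p.2 (u, w)) := fun p =>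
    (measurable_isFlat y A k D p.1 p.2).comp (by fun_prop)
  rw [lintegral_finsetSum _ fun p _ => hmeas p]
  set d : Fin n × Fin n → ℝ := fun p => (y p.2).1 + u - (y p.1).1 with hd
  set c : Fin n × Fin n → ℝ := fun p => (y p.1).2 - (y p.2).2 with hc
  have hx : ∀ p ∈ B ×ˢ A, ∀ w, (shift y A (u, w) p.2).1 - (shift y A (u, w) p.1).1 = d p := by
    intro p hp w
    rw [mem_product] at hp
    simp only [shift, hp.2, disjoint_left.1 hAB hp.1, if_true, if_false, Prod.fst_add, add_zero, hd]
  have hy : ∀ p ∈ B ×ˢ A, ∀ w, (shift y A (u, w) p.2).2 - (shift y A (u, w) p.1).2 = w - c p := by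
    intro p hp w
    rw [mem_product] at hp
    simp only [shift, hp.2, disjoint_left.1 hAB hp.1, if_true, if_false, Prod.snd_add, add_zero, hc]
    ring
  have h1 : ∀ p ∈ B ×ˢ A, ∫⁻ w, ind (IsFlat y A k D p.1 p.2 (u, w)) ≤
      ENNReal.ofReal D * ∫⁻ m, ind (IsFlat y A k D p.1 p.2 (u, c p + d p * m)) := by
    intro p hp
    by_cases h0 : d p = 0
    · have : ∀ w, ind (IsFlat y A k D p.1 p.2 (u, w)) = 0 := by
        intro w
        refine ind_of_not fun hf => hf.1.1 ?_
        have h2 := hf.2.1
        rw [hx p hp, h0, abs_zero] at h2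
        have h3 := abs_eq_zero.1 (le_antisymm h2 (abs_nonneg _))
        have h4 := hx p hp w
        rw [h0] at h4
        exact Prod.ext (by linarith) (by linarith)
      simp [this]
    · by_cases hD' : |d p| ≤ D
      · rw [lintegral_affine (hmeas p) (c p) (d p) h0]
        gcongr
      · have : ∀ w, ind (IsFlat y A k D p.1 p.2 (u, w)) = 0 := by
          intro w
          refine ind_of_not fun hf => hD' ?_
          have h2 := hf.2.2
          rwa [hx p hp] at h2
        simp [this]
  have h2 : ∀ m, ∑ p ∈ B ×ˢ A, ind (IsFlat y A k D p.1 p.2 (u, c p + d p * m)) ≤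
      Set.indicator (Set.Icc (-1 : ℝ) 1) (fun _ => ((2 * min #A #B : ℕ) : ℝ≥0∞)) m := by
    intro m
    by_cases hm : m ∈ Set.Icc (-1 : ℝ) 1
    · rw [Set.indicator_of_mem hm, sum_ind_le]
      refine Nat.cast_le.2 (card_slope y A B hAB k m (fun p => (u, c p + d p * m)) _ ?_)
      intro p h1 h2 h
      have e1 : (shift y A (u, c p + d p * m) p.2).1 - (shift y A (u, c p + d p * m) p.1).1 = d p := by
        simp only [shift, h1, h2, if_true, if_false, Prod.fst_add, add_zero, hd]
      have e2 : (shift y A (u, c p + d p * m) p.2).2 - (shift y A (u, c p + d p * m) p.1).2 =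
          m * d p := by
        simp only [shift, h1, h2, if_true, if_false, Prod.snd_add, add_zero, hc]
        ring
      refine ⟨h.1, fun e => h.1.1 ?_, by rw [e1, e2]⟩
      have hd0 : d p = 0 := by rw [← e1, e, sub_self]
      have e3 := e2.trans (by rw [hd0, mul_zero] : m * d p = 0)
      exact Prod.ext e.symm (by linarith)
    · rw [Set.indicator_of_notMem hm]
      refine le_of_eq (sum_eq_zero fun p hp => ind_of_not fun h => hm ?_)
      have h3 := h.2.1
      rw [hx p hp, hy p hp, add_sub_cancel_left, abs_mul] at h3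
      have hd0 : 0 < |d p| := by
        rw [abs_pos]
        intro h0
        refine h.1.1 (Prod.ext ?_ ?_)
        · have := hx p hp (c p + d p * m); linarith
        · have := (hy p hp (c p + d p * m)).trans (by rw [h0]; ring : c p + d p * m - c p = 0)
          linarith
      have : |m| ≤ 1 := by
        by_contra hc'
        push Not at hc'
        nlinarith
      exact abs_le.1 this
  calc ∑ p ∈ B ×ˢ A, ∫⁻ w, ind (IsFlat y A k D p.1 p.2 (u, w))
      ≤ ∑ p ∈ B ×ˢ A, ENNReal.ofReal D * ∫⁻ m, ind (IsFlat y A k D p.1 p.2 (u, c p + d p * m)) :=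
        sum_le_sum h1
    _ = ENNReal.ofReal D * ∫⁻ m, ∑ p ∈ B ×ˢ A, ind (IsFlat y A k D p.1 p.2 (u, c p + d p * m)) := by
        have h4 : ∀ p : Fin n × Fin n, Measurable fun m => ind (IsFlat y A k D p.1 p.2 (u, c p + d p * m)) :=
          fun p => (measurable_isFlat y A k D p.1 p.2).comp (by fun_prop)
        rw [← mul_sum, lintegral_finsetSum _ fun p _ => h4 p]
    _ ≤ ENNReal.ofReal D *
        ∫⁻ m, Set.indicator (Set.Icc (-1 : ℝ) 1) (fun _ => ((2 * min #A #B : ℕ) : ℝ≥0∞)) m := by
        gcongr with m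
        exact h2 m
    _ = ENNReal.ofReal (4 * D * (min #A #B : ℕ)) := by
        rw [lintegral_indicator measurableSet_Icc, setLIntegral_const, Real.volume_Icc,
          ← ENNReal.ofReal_natCast, ← ENNReal.ofReal_mul (by positivity), ← ENNReal.ofReal_mul hD]
        congr 1
        push_cast
        ring

theorem shift_swap (y : Fin n → ℝ × ℝ) (A : Finset (Fin n)) (z : ℝ × ℝ) (l : Fin n) :
    shift (fun l => (y l).swap) A z.swap l = (shift y A z l).swap := by
  unfold shift
  by_cases hl : l ∈ A <;> simp [hl]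

theorem short_le (y : Fin n → ℝ × ℝ) (A : Finset (Fin n)) (k : ℕ) (D : ℝ) (i j : Fin n) (z : ℝ × ℝ) :
    ind (IsShort y A k D i j z) ≤ ind (IsFlat y A k D i j z) +
      ind (IsFlat (fun l => (y l).swap) A (n - 2 - k) D i j z.swap) := by
  by_cases h : IsShort y A k D i j z
  swap
  · rw [ind_of_not h]; exact zero_le
  rcases le_total |(shift y A z j).2 - (shift y A z i).2| |(shift y A z j).1 - (shift y A z i).1| with h' | h'
  · refine le_add_right (ind_mono fun _ => ⟨h.1, h', h.2.1⟩)
  · refine le_add_left (ind_mono fun _ => ⟨?_, ?_, ?_⟩)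
    · have := (isEdge_swap h.1).2
      convert this using 2 with l
      exact shift_swap y A z l
    · simpa only [shift_swap, Prod.fst_swap, Prod.snd_swap] using h'
    · simpa only [shift_swap, Prod.fst_swap, Prod.snd_swap] using h.2.2

/-- The expected number of the short directed `k`-edges from the fixed set `B` to the moving set `A`. -/
theorem lintegral_core (y : Fin n → ℝ × ℝ) (A B : Finset (Fin n)) (hAB : Disjoint B A) (k : ℕ) {D r κ : ℝ}
    (hD : 0 ≤ D) (hr : 0 < r) (hκ : 0 ≤ κ) (ν : Measure (ℝ × ℝ))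
    (hν : ν ≤ ENNReal.ofReal (κ / r ^ 2) • volume) (hs : ∀ᵐ z ∂ν, |z.1| ≤ r ∧ |z.2| ≤ r) :
    ∫⁻ z, ∑ p ∈ B ×ˢ A, ind (IsShort y A k D p.1 p.2 z) ∂ν ≤
      ENNReal.ofReal (16 * κ * (D / r) * (min #A #B : ℕ)) := by
  set M : ℝ≥0∞ := ENNReal.ofReal (4 * D * (min #A #B : ℕ)) with hM
  set y' : Fin n → ℝ × ℝ := fun l => (y l).swap with hy'
  set f : ℝ × ℝ → ℝ≥0∞ := fun z => ∑ p ∈ B ×ˢ A, ind (IsFlat y A k D p.1 p.2 z) with hf
  set g : ℝ × ℝ → ℝ≥0∞ := fun z => ∑ p ∈ B ×ˢ A, ind (IsFlat y' A (n - 2 - k) D p.1 p.2 z) with hg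
  have hfm : Measurable f := Finset.measurable_fun_sum _ fun p _ => measurable_isFlat y A k D p.1 p.2
  have hgm : Measurable g :=
    Finset.measurable_fun_sum _ fun p _ => measurable_isFlat y' A (n - 2 - k) D p.1 p.2
  have hvol : ∀ h : ℝ × ℝ → ℝ≥0∞, ∀ S : Set (ℝ × ℝ), MeasurableSet S → (∀ᵐ z ∂ν, z ∈ S) →
      ∫⁻ z, h z ∂ν ≤ ENNReal.ofReal (κ / r ^ 2) * ∫⁻ z in S, h z := by
    intro h S hS hmem
    calc ∫⁻ z, h z ∂ν = ∫⁻ z in S, h z ∂ν := by rw [Measure.restrict_eq_self_of_ae_mem hmem]
      _ ≤ ∫⁻ z in S, h z ∂(ENNReal.ofReal (κ / r ^ 2) • volume) :=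
          lintegral_mono' (Measure.restrict_mono le_rfl hν) le_rfl
      _ = _ := by rw [Measure.restrict_smul, lintegral_smul_measure, smul_eq_mul]
  have hI : volume (Set.Icc (-r) r) = ENNReal.ofReal (2 * r) := by
    rw [Real.volume_Icc]; congr 1; ring
  have h1 : ∫⁻ z, f z ∂ν ≤ ENNReal.ofReal (κ / r ^ 2) * (M * ENNReal.ofReal (2 * r)) := by
    refine (hvol f (Set.Icc (-r) r ×ˢ Set.univ) (measurableSet_Icc.prod MeasurableSet.univ) ?_).trans ?_
    · filter_upwards [hs] with z hz using ⟨abs_le.1 hz.1, trivial⟩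
    · gcongr
      rw [Measure.volume_eq_prod, ← Measure.prod_restrict, Measure.restrict_univ,
        lintegral_prod _ hfm.aemeasurable]
      calc ∫⁻ u in Set.Icc (-r) r, ∫⁻ w, f (u, w) ≤ ∫⁻ _ in Set.Icc (-r) r, M := by
            refine lintegral_mono fun u => ?_
            exact lintegral_flat y A B hAB k hD u
        _ = M * ENNReal.ofReal (2 * r) := by rw [setLIntegral_const, hI]
  have h2 : ∫⁻ z, g z.swap ∂ν ≤ ENNReal.ofReal (κ / r ^ 2) * (M * ENNReal.ofReal (2 * r)) := by
    refine (hvol (fun z => g z.swap) (Set.univ ×ˢ Set.Icc (-r) r)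
      (MeasurableSet.univ.prod measurableSet_Icc) ?_).trans ?_
    · filter_upwards [hs] with z hz using ⟨trivial, abs_le.1 hz.2⟩
    · gcongr
      have hgs : Measurable fun z : ℝ × ℝ => g z.swap := hgm.comp measurable_swap
      rw [Measure.volume_eq_prod, ← Measure.prod_restrict, Measure.restrict_univ,
        lintegral_prod_symm _ hgs.aemeasurable]
      calc ∫⁻ w in Set.Icc (-r) r, ∫⁻ u, g (u, w).swap ≤ ∫⁻ _ in Set.Icc (-r) r, M := by
            refine lintegral_mono fun w => ?_
            exact lintegral_flat y' A B hAB (n - 2 - k) hD w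
        _ = M * ENNReal.ofReal (2 * r) := by rw [setLIntegral_const, hI]
  calc ∫⁻ z, ∑ p ∈ B ×ˢ A, ind (IsShort y A k D p.1 p.2 z) ∂ν ≤ ∫⁻ z, (f z + g z.swap) ∂ν := by
        refine lintegral_mono fun z => ?_
        simp only [hf, hg]
        rw [← sum_add_distrib]
        exact sum_le_sum fun p _ => short_le y A k D p.1 p.2 z
    _ = ∫⁻ z, f z ∂ν + ∫⁻ z, g z.swap ∂ν := lintegral_add_left hfm _
    _ ≤ ENNReal.ofReal (κ / r ^ 2) * (M * ENNReal.ofReal (2 * r)) +
        ENNReal.ofReal (κ / r ^ 2) * (M * ENNReal.ofReal (2 * r)) := add_le_add h1 h2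
    _ = ENNReal.ofReal (16 * κ * (D / r) * (min #A #B : ℕ)) := by
        rw [hM, ← ENNReal.ofReal_mul (by positivity), ← ENNReal.ofReal_mul (by positivity),
          ← ENNReal.ofReal_add (by positivity) (by positivity)]
        congr 1
        field_simp
        ring

end Pool.Agent.H56.RP
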