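import Pool.Agent.H56.RP.Main

/-!
# Random translations at several levels

`c t l` is the label of the point `l` at the level `t`: the points with the same label at the level `t` form a part
of this level.

* `Refines c`: the parts of a level are contained in parts of the previous levels,
* `move x c v`: the point `x l` is moved by the sum of the vectors `v (t, c t l)` of its parts,
* `joining X c k`: the number of the directed `k`-edges that join points of different parts (of some level).
-/

namespace Pool.Agent.H56.RP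

open Finset MeasureTheory
open scoped ENNReal

variable {h m n : ℕ}

/-- The points with the same label at a level `t` have the same label at all the previous levels. -/
def Refines (c : Fin h → Fin n → Fin m) : Prop :=
  ∀ s t : Fin h, s ≤ t → ∀ i j : Fin n, c t i = c t j → c s i = c s j

/-- Every point `x l` is moved by the vectors of all its parts. -/
def move (x : Fin n → ℝ × ℝ) (c : Fin h → Fin n → Fin m) (v : Fin h × Fin m → ℝ × ℝ) (l : Fin n) : ℝ × ℝ :=
  x l + ∑ t, v (t, c t l)

/-- The part with the label `q.2` of the level `q.1`. -/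
def part (c : Fin h → Fin n → Fin m) (q : Fin h × Fin m) : Finset (Fin n) := {l | c q.1 l = q.2}

open Classical in
/-- The siblings of the part with the label `q.2` of the level `q.1`. -/
noncomputable def sib (c : Fin h → Fin n → Fin m) (q : Fin h × Fin m) : Finset (Fin n) :=
  {l | c q.1 l ≠ q.2 ∧ ∀ i, c q.1 i = q.2 → ∀ s < q.1, c s l = c s i}

open Classical in
/-- The number of the directed `k`-edges that join points of different parts (of some level). -/
noncomputable def joining (X : Fin n → ℝ × ℝ) (c : Fin h → Fin n → Fin m) (k : ℕ) : ℕ :=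
  #{p : Fin n × Fin n | (∃ t, c t p.1 ≠ c t p.2) ∧ IsEdge X k p.1 p.2}

theorem place_part (x : Fin n → ℝ × ℝ) (c : Fin h → Fin n → Fin m) (v : Fin h × Fin m → ℝ × ℝ) :
    place x (part c) v = move x c v := by
  funext l
  simp only [place, move, part, mem_filter, mem_univ, true_and]
  rw [Fintype.sum_prod_type]
  congr 1
  refine sum_congr rfl fun t _ => ?_
  simp

theorem measurable_between {ι : Type*} [Fintype ι] (x : Fin n → ℝ × ℝ) (A : ι → Finset (Fin n)) (k : ℕ)
    (S T : Finset (Fin n)) :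
    Measurable fun v : ι → ℝ × ℝ => (between (place x A v) k S T : ℝ≥0∞) := by
  classical
  unfold between
  simp_rw [← sum_ind_le]
  refine Finset.measurable_fun_sum _ fun p _ => measurable_ind ?_
  have hm := measurableSet_isEdge (measurable_place x A) k p.1 p.2
  by_cases h' : (p.1 ∈ S ∧ p.2 ∈ T) ∨ (p.1 ∈ T ∧ p.2 ∈ S)
  · simpa only [h', true_and] using hm
  · simp [h']

theorem measurable_joining (x : Fin n → ℝ × ℝ) (c : Fin h → Fin n → Fin m) (k : ℕ) :
    Measurable fun v : Fin h × Fin m → ℝ × ℝ => (joining (move x c v) c k : ℝ≥0∞) := by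
  classical
  unfold joining
  simp_rw [← place_part, ← sum_ind_le]
  refine Finset.measurable_fun_sum _ fun p _ => measurable_ind ?_
  have hm := measurableSet_isEdge (measurable_place x (part c)) k p.1 p.2
  by_cases h' : ∃ t, c t p.1 ≠ c t p.2
  · simpa only [h', true_and] using hm
  · simp [h']

theorem two_mul_joining_le (X : Fin n → ℝ × ℝ) (c : Fin h → Fin n → Fin m) (hc : Refines c) (k : ℕ) :
    2 * joining X c k ≤ ∑ q, between X k (part c q) (sib c q) := by
  classical
  unfold joining between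
  simp_rw [card_filter, mul_sum]
  rw [sum_comm]
  refine sum_le_sum fun p _ => ?_
  by_cases hp : (∃ t, c t p.1 ≠ c t p.2) ∧ IsEdge X k p.1 p.2
  swap
  · simp [hp]
  rw [if_pos hp, mul_one]
  obtain ⟨⟨t, ht⟩, he⟩ := hp
  have hne : (univ.filter fun t => c t p.1 ≠ c t p.2).Nonempty := ⟨t, by simp [ht]⟩
  set t₀ := (univ.filter fun t => c t p.1 ≠ c t p.2).min' hne with ht₀
  have h1 : c t₀ p.1 ≠ c t₀ p.2 := (mem_filter.1 (min'_mem _ hne)).2
  have h2 : ∀ s < t₀, c s p.1 = c s p.2 := by
    intro s hs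
    by_contra hcon
    exact absurd (min'_le _ s (mem_filter.2 ⟨mem_univ _, hcon⟩)) (not_le.2 hs)
  have hs1 : p.2 ∈ sib c (t₀, c t₀ p.1) := by
    simp only [sib, mem_filter, mem_univ, true_and]
    exact ⟨h1.symm, fun i hi s hs => by rw [← h2 s hs, hc s t₀ hs.le _ _ hi]⟩
  have hs2 : p.1 ∈ sib c (t₀, c t₀ p.2) := by
    simp only [sib, mem_filter, mem_univ, true_and]
    exact ⟨h1, fun i hi s hs => by rw [h2 s hs, hc s t₀ hs.le _ _ hi]⟩
  rw [← card_filter]
  refine one_lt_card.2 ⟨(t₀, c t₀ p.1), ?_, (t₀, c t₀ p.2), ?_, fun e => h1 (congrArg Prod.snd e)⟩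
  · rw [mem_filter]
    exact ⟨mem_univ _, Or.inl ⟨by simp [part], hs1⟩, he⟩
  · rw [mem_filter]
    exact ⟨mem_univ _, Or.inr ⟨hs2, by simp [part]⟩, he⟩

theorem sum_card_part (c : Fin h → Fin n → Fin m) (t : Fin h) : ∑ J, #(part c (t, J)) = n := by
  unfold part
  have := card_eq_sum_card_fiberwise (f := c t) (s := univ) (t := univ) (fun _ _ => by simp)
  rw [card_univ, Fintype.card_fin] at this
  exact this.symm

theorem dist_move (x : Fin n → ℝ × ℝ) (c : Fin h → Fin n → Fin m) (v : Fin h × Fin m → ℝ × ℝ)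
    (r : Fin h → ℝ) (hv : ∀ q, |(v q).1| ≤ r q.1 ∧ |(v q).2| ≤ r q.1) (t : Fin h) (i j : Fin n)
    (hij : ∀ s < t, c s i = c s j) :
    |(move x c v i).1 - (move x c v j).1| ≤ |(x i).1 - (x j).1| + 2 * ∑ s with t ≤ s, r s ∧
    |(move x c v i).2 - (move x c v j).2| ≤ |(x i).2 - (x j).2| + 2 * ∑ s with t ≤ s, r s := by
  have key : ∀ (π : ℝ × ℝ → ℝ), (∀ a b, π (a + b) = π a + π b) → π 0 = 0 → (∀ q, |π (v q)| ≤ r q.1) →
      |π (move x c v i) - π (move x c v j)| ≤ |π (x i) - π (x j)| + 2 * ∑ s with t ≤ s, r s := by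
    intro π hπ h0 hb
    have hs : ∀ (s : Finset (Fin h)) (g : Fin h → ℝ × ℝ), π (∑ a ∈ s, g a) = ∑ a ∈ s, π (g a) := by
      intro s g
      induction s using Finset.induction_on with
      | empty => simpa using h0
      | insert a s ha ih => rw [sum_insert ha, sum_insert ha, hπ, ih]
    simp only [move, hπ, hs]
    have e : π (x i) + ∑ a, π (v (a, c a i)) - (π (x j) + ∑ a, π (v (a, c a j))) =
        (π (x i) - π (x j)) + ∑ a, (π (v (a, c a i)) - π (v (a, c a j))) := by
      rw [sum_sub_distrib]; ring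
    rw [e]
    refine (abs_add_le _ _).trans (add_le_add le_rfl ?_)
    refine (abs_sum_le_sum_abs _ _).trans ?_
    rw [mul_sum, sum_filter]
    refine sum_le_sum fun s _ => ?_
    split_ifs with hst
    · have h1 := hb (s, c s i)
      have h2 := hb (s, c s j)
      simp only at h1 h2
      refine (abs_sub _ _).trans ?_
      linarith
    · rw [hij s (not_le.1 hst), sub_self, abs_zero]
  exact ⟨key Prod.fst (fun _ _ => rfl) rfl fun q => (hv q).1,
    key Prod.snd (fun _ _ => rfl) rfl fun q => (hv q).2⟩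

/-- Noise: independent random vectors, with densities at most `κ / r t ^ 2` in squares of side `2 r t`. -/
structure Noise (ν : Fin h × Fin m → Measure (ℝ × ℝ)) (r : Fin h → ℝ) (κ : ℝ) : Prop where
  prob : ∀ q, IsProbabilityMeasure (ν q)
  rpos : ∀ t, 0 < r t
  bound : ∀ q, ν q ≤ ENNReal.ofReal (κ / r q.1 ^ 2) • volume
  supp : ∀ q, ∀ᵐ z ∂ν q, |z.1| ≤ r q.1 ∧ |z.2| ≤ r q.1

theorem Noise.kappa {ν : Fin h × Fin m → Measure (ℝ × ℝ)} {r : Fin h → ℝ} {κ : ℝ} (hN : Noise ν r κ)
    (q : Fin h × Fin m) : 0 ≤ κ := by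
  by_contra hc
  push Not at hc
  have h1 := hN.bound q
  rw [ENNReal.ofReal_of_nonpos (div_nonpos_of_nonpos_of_nonneg hc.le (sq_nonneg _)), zero_smul] at h1
  have h2 := Measure.le_iff'.1 h1 Set.univ
  have := hN.prob q
  rw [measure_univ] at h2
  simp at h2

theorem Noise.ae_supp {ν : Fin h × Fin m → Measure (ℝ × ℝ)} {r : Fin h → ℝ} {κ : ℝ} (hN : Noise ν r κ) :
    ∀ᵐ v ∂Measure.pi ν, ∀ q, |(v q).1| ≤ r q.1 ∧ |(v q).2| ≤ r q.1 := by
  have := hN.prob
  rw [ae_all_iff]
  intro q
  exact (Measure.quasiMeasurePreserving_eval ν q).ae (hN.supp q)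

theorem lintegral_joining (x : Fin n → ℝ × ℝ) (c : Fin h → Fin n → Fin m) (hc : Refines c)
    {ν : Fin h × Fin m → Measure (ℝ × ℝ)} {r D : Fin h → ℝ} {κ : ℝ} (hN : Noise ν r κ)
    (hD0 : ∀ t, 0 ≤ D t)
    (hD : ∀ t i j, (∀ s < t, c s i = c s j) → |(x i).1 - (x j).1| + 2 * ∑ s with t ≤ s, r s ≤ D t ∧
      |(x i).2 - (x j).2| + 2 * ∑ s with t ≤ s, r s ≤ D t) (k : ℕ) :
    ∫⁻ v, (joining (move x c v) c k : ℝ≥0∞) ∂Measure.pi ν ≤
      ENNReal.ofReal (16 * κ * n * ∑ t, D t / r t) := by
  have := hN.prob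
  have hq : ∀ q, ∫⁻ v, (between (place x (part c) v) k (part c q) (sib c q) : ℝ≥0∞) ∂Measure.pi ν ≤
      ENNReal.ofReal (32 * κ * (D q.1 / r q.1) * #(part c q)) := by
    intro q
    refine (lintegral_between x (part c) (sib c q) ν q ?_ k (hD0 q.1) (hN.rpos q.1) (hN.kappa q)
      (hN.bound q) (hN.supp q) ?_).trans (ENNReal.ofReal_le_ofReal ?_)
    · rw [disjoint_left]
      intro l hl hl'
      simp only [sib, part, mem_filter, mem_univ, true_and] at hl hl'
      exact hl.1 hl'
    · filter_upwards [hN.ae_supp] with v hv i hi j hj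
      rw [place_part]
      simp only [sib, part, mem_filter, mem_univ, true_and] at hi hj
      have h1 := dist_move x c v r hv q.1 i j (hi.2 j hj)
      have h2 := hD q.1 i j (hi.2 j hj)
      exact ⟨h1.1.trans h2.1, h1.2.trans h2.2⟩
    · have := hN.kappa q
      have := hD0 q.1
      have := hN.rpos q.1
      gcongr
      exact min_le_left _ _
  have h2 : 2 * ∫⁻ v, (joining (move x c v) c k : ℝ≥0∞) ∂Measure.pi ν ≤
      2 * ENNReal.ofReal (16 * κ * n * ∑ t, D t / r t) := by
    calc 2 * ∫⁻ v, (joining (move x c v) c k : ℝ≥0∞) ∂Measure.pi ν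
        = ∫⁻ v, 2 * (joining (move x c v) c k : ℝ≥0∞) ∂Measure.pi ν := by
          rw [lintegral_const_mul' _ _ (by simp)]
      _ ≤ ∫⁻ v, ∑ q, (between (place x (part c) v) k (part c q) (sib c q) : ℝ≥0∞) ∂Measure.pi ν := by
          refine lintegral_mono fun v => ?_
          rw [← place_part]
          have h5 := (Nat.cast_le (α := ℝ≥0∞)).2 (two_mul_joining_le (place x (part c) v) c hc k)
          rw [Nat.cast_mul, Nat.cast_sum] at h5
          exact h5
      _ = ∑ q, ∫⁻ v, (between (place x (part c) v) k (part c q) (sib c q) : ℝ≥0∞) ∂Measure.pi ν :=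
          lintegral_finsetSum _ fun q _ => measurable_between x (part c) k _ _
      _ ≤ ∑ q : Fin h × Fin m, ENNReal.ofReal (32 * κ * (D q.1 / r q.1) * #(part c q)) :=
          sum_le_sum fun q _ => hq q
      _ = ENNReal.ofReal (∑ q : Fin h × Fin m, 32 * κ * (D q.1 / r q.1) * #(part c q)) := by
          rw [ENNReal.ofReal_sum_of_nonneg]
          intro q _
          have := hN.kappa q
          have := hD0 q.1
          have := hN.rpos q.1
          positivity
      _ = 2 * ENNReal.ofReal (16 * κ * n * ∑ t, D t / r t) := by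
          rw [← ENNReal.ofReal_ofNat 2, ← ENNReal.ofReal_mul (by norm_num)]
          congr 1
          rw [Fintype.sum_prod_type, mul_sum, mul_sum]
          refine sum_congr rfl fun t _ => ?_
          simp only
          rw [← mul_sum, ← Nat.cast_sum, sum_card_part]
          ring
  rwa [ENNReal.mul_le_mul_iff_right (by norm_num) (by norm_num)] at h2

/-- The finest parts are rigid sets in general position. -/
def RigidGP (x : Fin n → ℝ × ℝ) (c : Fin h → Fin n → Fin m) : Prop :=
  (∀ i j, i ≠ j → (∀ t, c t i = c t j) → x i ≠ x j) ∧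
  ∀ i j l, i ≠ j → i ≠ l → j ≠ l → (∀ t, c t i = c t j) → (∀ t, c t i = c t l) →
    orient (x i) (x j) (x l) ≠ 0

theorem orient_perm1 (p q s : ℝ × ℝ) : orient p s q = -orient p q s := by
  simp only [orient]; ring

theorem orient_perm2 (p q s : ℝ × ℝ) : orient q s p = orient p q s := by
  simp only [orient]; ring

theorem orient_add (p q s w : ℝ × ℝ) : orient (p + w) (q + w) (s + w) = orient p q s := by
  simp only [orient, Prod.fst_add, Prod.snd_add]; ring

theorem ae_generic (x : Fin n → ℝ × ℝ) (c : Fin h → Fin n → Fin m) (hx : RigidGP x c)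
    {ν : Fin h × Fin m → Measure (ℝ × ℝ)} {r : Fin h → ℝ} {κ : ℝ} (hN : Noise ν r κ) :
    ∀ᵐ v ∂Measure.pi ν, Function.Injective (move x c v) ∧ ∀ i j l, i ≠ j → i ≠ l → j ≠ l →
      orient (move x c v i) (move x c v j) (move x c v l) ≠ 0 := by
  have := hN.prob
  have hac : ∀ q, ν q ≪ volume := fun q =>
    (Measure.absolutelyContinuous_of_le (hN.bound q)).trans (Measure.smul_absolutelyContinuous)
  have hsame : ∀ v i j, (∀ t, c t i = c t j) → move x c v i = x i + ∑ t, v (t, c t j) := by
    intro v i j hij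
    simp only [move, hij]
  have h1 : ∀ i j, i ≠ j → ∀ᵐ v ∂Measure.pi ν, move x c v i ≠ move x c v j := by
    intro i j hij
    by_cases hs : ∀ t, c t i = c t j
    · refine Filter.Eventually.of_forall fun v e => hx.1 i j hij hs ?_
      rw [hsame v i j hs, move] at e
      exact add_right_cancel e
    · push Not at hs
      obtain ⟨t, ht⟩ := hs
      have := ae_ne x (part c) ν (t, c t j) (hac _) (i := i) (j := j) (by simp [part, ht])
        (by simp [part])
      simpa only [place_part] using this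
  have h2 : ∀ i j l t, c t i ≠ c t l → c t j ≠ c t l → i ≠ j →
      ∀ᵐ v ∂Measure.pi ν, orient (move x c v i) (move x c v j) (move x c v l) ≠ 0 := by
    intro i j l t hil hjl hij
    have h3 := ae_orient x (part c) ν (t, c t l) (hac _) (i := i) (j := j) (l := l)
      (by simp [part, hil]) (by simp [part, hjl]) (by simp [part])
    simp only [place_part] at h3
    filter_upwards [h3, h1 i j hij] with v hv hv' using hv hv'
  have h3 : ∀ i j l, i ≠ j → i ≠ l → j ≠ l →
      ∀ᵐ v ∂Measure.pi ν, orient (move x c v i) (move x c v j) (move x c v l) ≠ 0 := by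
    intro i j l hij hil hjl
    by_cases hs : (∀ t, c t i = c t j) ∧ ∀ t, c t i = c t l
    · refine Filter.Eventually.of_forall fun v => ?_
      have e1 := hsame v j i fun t => (hs.1 t).symm
      have e2 := hsame v l i fun t => (hs.2 t).symm
      rw [e1, e2, move, orient_add]
      exact hx.2 i j l hij hil hjl hs.1 hs.2
    · have : ∃ t, c t i ≠ c t j ∨ c t i ≠ c t l := by
        by_contra hcon
        push Not at hcon
        exact hs ⟨fun t => (hcon t).1, fun t => (hcon t).2⟩
      obtain ⟨t, ht⟩ := this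
      by_cases e1 : c t i = c t j
      · have e2 : c t i ≠ c t l := by tauto
        exact h2 i j l t e2 (by rwa [← e1]) hij
      · by_cases e2 : c t i = c t l
        · have := h2 i l j t e1 (by rw [← e2]; exact e1) hil
          filter_upwards [this] with v hv
          rw [orient_perm1] at hv
          exact neg_ne_zero.1 hv
        · have := h2 j l i t (fun e => e1 e.symm) (fun e => e2 e.symm) hjl
          filter_upwards [this] with v hv
          rwa [orient_perm2] at hv
  rw [Filter.eventually_and]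
  constructor
  · have h4 : ∀ᵐ v ∂Measure.pi ν, ∀ i j, i ≠ j → move x c v i ≠ move x c v j := by
      rw [ae_all_iff]; intro i
      rw [ae_all_iff]; intro j
      by_cases hij : i = j
      · exact Filter.Eventually.of_forall fun v hne => absurd hij hne
      · filter_upwards [h1 i j hij] with v hv _ using hv
    filter_upwards [h4] with v hv i j e
    by_contra hne
    exact hv i j hne e
  · rw [ae_all_iff]; intro i
    rw [ae_all_iff]; intro j
    rw [ae_all_iff]; intro l
    by_cases hd : i ≠ j ∧ i ≠ l ∧ j ≠ l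
    · filter_upwards [h3 i j l hd.1 hd.2.1 hd.2.2] with v hv _ _ _ using hv
    · exact Filter.Eventually.of_forall fun v a b e => absurd ⟨a, b, e⟩ hd

open KLev.Halving

theorem generalPosition_of {X : Fin n → ℝ × ℝ}
    (hX : ∀ i j l, i ≠ j → i ≠ l → j ≠ l → orient (X i) (X j) (X l) ≠ 0) :
    GeneralPosition (univ.image X) := by
  intro a b c hab p hp q hq s hs hpq hps hqs hL
  simp only [mem_image, mem_univ, true_and] at hp hq hs
  obtain ⟨i, rfl⟩ := hp
  obtain ⟨j, rfl⟩ := hq
  obtain ⟨l, rfl⟩ := hs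
  obtain ⟨lam, -, ho⟩ := orient_line hab hpq hL.1 hL.2.1
  refine hX i j l (fun e => hpq (by rw [e])) (fun e => hps (by rw [e])) (fun e => hqs (by rw [e])) ?_
  have h3 := hL.2.2
  simp only [Line, Set.mem_ofPred_eq] at h3
  rw [ho, h3, sub_self, mul_zero]

/-! ### Uniform noise -/

/-- The uniform distribution on the square `[-r, r] ^ 2`. -/
noncomputable def unif (r : ℝ) : Measure (ℝ × ℝ) :=
  ENNReal.ofReal (1 / 4 / r ^ 2) • volume.restrict (Set.Icc (-r) r ×ˢ Set.Icc (-r) r)

theorem noise_unif (r : Fin h → ℝ) (hr : ∀ t, 0 < r t) :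
    Noise (fun q : Fin h × Fin m => unif (r q.1)) r (1 / 4) := by
  have hm : ∀ a : ℝ, MeasurableSet (Set.Icc (-a) a ×ˢ Set.Icc (-a) a) := fun a =>
    measurableSet_Icc.prod measurableSet_Icc
  refine ⟨fun q => ⟨?_⟩, hr, fun q => ?_, fun q => ?_⟩
  · have h0 := hr q.1
    rw [unif, Measure.smul_apply, Measure.restrict_apply_univ, Measure.volume_eq_prod,
      Measure.prod_prod, Real.volume_Icc, smul_eq_mul, ← ENNReal.ofReal_mul (by linarith),
      ← ENNReal.ofReal_mul (by positivity), ← ENNReal.ofReal_one]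
    congr 1
    field_simp
    ring
  · unfold unif
    exact smul_le_smul_left _ Measure.restrict_le_self
  · unfold unif
    refine Measure.ae_smul_measure ?_ _
    filter_upwards [ae_restrict_mem (hm (r q.1))] with z hz
    exact ⟨abs_le.2 hz.1, abs_le.2 hz.2⟩

/-- `L` is a bisector of the set of the points `X l` that joins points of different parts (of some level). -/
def JoiningBisector (X : Fin n → ℝ × ℝ) (c : Fin h → Fin n → Fin m) (L : Set (ℝ × ℝ)) : Prop :=
  IsBisector (univ.image X) L ∧ ∃ i j, (∃ t, c t i ≠ c t j) ∧ X i ∈ L ∧ X j ∈ L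

theorem joiningBisectors_le {X : Fin n → ℝ × ℝ} (hX : Function.Injective X) (hn : Even n)
    (c : Fin h → Fin n → Fin m) :
    2 * {L | JoiningBisector X c L}.ncard ≤ joining X c (n / 2 - 1) := by
  refine (two_mul_bisectors_le hX hn (fun i j => ∃ t, c t i ≠ c t j)
    (fun i j ⟨t, ht⟩ => ⟨t, ht.symm⟩) (fun i j ⟨t, ht⟩ e => ht (by rw [e]))).trans ?_
  unfold joining
  exact le_of_eq (by congr)

theorem exists_translations (x : Fin n → ℝ × ℝ) (c : Fin h → Fin n → Fin m) (hc : Refines c)
    (hx : RigidGP x c) (hn : Even n) (r D : Fin h → ℝ) (hr : ∀ t, 0 < r t)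
    (hrD : ∀ t, 2 * ∑ s with t ≤ s, r s ≤ D t)
    (hD : ∀ t i j, (∀ s < t, c s i = c s j) → |(x i).1 - (x j).1| ≤ D t ∧ |(x i).2 - (x j).2| ≤ D t) :
    ∃ v : Fin h × Fin m → ℝ × ℝ, (∀ q, |(v q).1| ≤ r q.1 ∧ |(v q).2| ≤ r q.1) ∧
      Function.Injective (move x c v) ∧ GeneralPosition (univ.image (move x c v)) ∧
      ({L | JoiningBisector (move x c v) c L}.ncard : ℝ) ≤ 4 * n * ∑ t, D t / r t := by
  have hN := noise_unif (m := m) r hr
  have := hN.prob
  set ν : Fin h × Fin m → Measure (ℝ × ℝ) := fun q => unif (r q.1) with hν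
  have hD0 : ∀ t, 0 ≤ D t := fun t => le_trans
    (mul_nonneg zero_le_two (sum_nonneg fun s _ => (hr s).le)) (hrD t)
  have hint := lintegral_joining (D := fun t => 2 * D t) x c hc hN
    (fun t => mul_nonneg zero_le_two (hD0 t))
    (fun t i j hij => ⟨by linarith [(hD t i j hij).1, hrD t], by linarith [(hD t i j hij).2, hrD t]⟩)
    (n / 2 - 1)
  have hae : ∀ᵐ v ∂Measure.pi ν, (∀ q, |(v q).1| ≤ r q.1 ∧ |(v q).2| ≤ r q.1) ∧
      Function.Injective (move x c v) ∧ ∀ i j l, i ≠ j → i ≠ l → j ≠ l →
        orient (move x c v i) (move x c v j) (move x c v l) ≠ 0 := by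
    filter_upwards [hN.ae_supp, ae_generic x c hx hN] with v h1 h2 using ⟨h1, h2⟩
  have hmeas : Measurable fun v : Fin h × Fin m → ℝ × ℝ =>
      (joining (move x c v) c (n / 2 - 1) : ℝ≥0∞) := measurable_joining x c _
  obtain ⟨v, hv, hle⟩ := exists_notMem_null_le_lintegral (μ := Measure.pi ν) hmeas.aemeasurable hae
  simp only [Set.mem_compl_iff, Set.mem_ofPred_eq, not_not] at hv
  refine ⟨v, hv.1, hv.2.1, generalPosition_of hv.2.2, ?_⟩
  have h1 := hle.trans hint
  have h0 : 0 ≤ ∑ t, D t / r t := sum_nonneg fun t _ => div_nonneg (hD0 t) (hr t).le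
  have e : 16 * (1 / 4) * (n : ℝ) * ∑ t, 2 * D t / r t = 2 * (4 * n * ∑ t, D t / r t) := by
    have : ∑ t, 2 * D t / r t = 2 * ∑ t, D t / r t := by
      rw [mul_sum]
      exact sum_congr rfl fun t _ => by ring
    rw [this]; ring
  rw [e, ← ENNReal.ofReal_natCast, ENNReal.ofReal_le_ofReal_iff (by positivity)] at h1
  have h2 : (2 * {L | JoiningBisector (move x c v) c L}.ncard : ℝ) ≤
      (joining (move x c v) c (n / 2 - 1) : ℝ) := by
    exact_mod_cast joiningBisectors_le hv.2.1 hn c
  linarith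

end Pool.Agent.H56.RP

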