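import Pool.Agent.H56.RP.Flat
import Pool.Graph.R_seed8.KLev.Halving

/-!
# `k`-edges of sets with randomly translated subsets

* `place x A v`: the points `x l`, moved by the vectors `v t` of all `t` with `l ∈ A t`,
* `between X k S T`: the number of the directed `k`-edges from `S` to `T` or from `T` to `S`.
-/

namespace Pool.Agent.H56.RP

open Finset MeasureTheory
open scoped ENNReal

variable {n : ℕ}

/-- The points `x l`, moved by the vectors `v t` of all `t` with `l ∈ A t`. -/
def place {ι : Type*} [Fintype ι] (x : Fin n → ℝ × ℝ) (A : ι → Finset (Fin n)) (v : ι → ℝ × ℝ)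
    (l : Fin n) : ℝ × ℝ :=
  x l + ∑ t, if l ∈ A t then v t else 0

open Classical in
/-- The number of the directed `k`-edges between `S` and `T`. -/
noncomputable def between (X : Fin n → ℝ × ℝ) (k : ℕ) (S T : Finset (Fin n)) : ℕ :=
  #{p : Fin n × Fin n | ((p.1 ∈ S ∧ p.2 ∈ T) ∨ (p.1 ∈ T ∧ p.2 ∈ S)) ∧ IsEdge X k p.1 p.2}

theorem measurable_place {ι : Type*} [Fintype ι] (x : Fin n → ℝ × ℝ) (A : ι → Finset (Fin n)) (l : Fin n) :
    Measurable fun v : ι → ℝ × ℝ => place x A v l := by
  unfold place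
  refine measurable_const.add (Finset.measurable_fun_sum _ fun t _ => ?_)
  by_cases h : l ∈ A t <;> simp only [h, if_true, if_false]
  · exact measurable_pi_apply t
  · exact measurable_const

theorem place_update {ι : Type*} [Fintype ι] [DecidableEq ι] (x : Fin n → ℝ × ℝ) (A : ι → Finset (Fin n))
    (v : ι → ℝ × ℝ) (t : ι) (z : ℝ × ℝ) (l : Fin n) :
    place x A (Function.update v t z) l = shift (place x A (Function.update v t 0)) (A t) z l := by
  simp only [place, shift]
  rw [← add_sum_erase _ _ (mem_univ t), ← add_sum_erase (a := t) _ (fun s => if l ∈ A s then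
    Function.update v t 0 s else 0) (mem_univ t)]
  simp only [Function.update_self]
  have : ∀ w : ℝ × ℝ, ∑ s ∈ univ.erase t, (if l ∈ A s then Function.update v t w s else 0) =
      ∑ s ∈ univ.erase t, (if l ∈ A s then v s else 0) := fun w =>
    sum_congr rfl fun s hs => by rw [Function.update_of_ne (ne_of_mem_erase hs)]
  rw [this, this]
  by_cases h : l ∈ A t
  · simp only [h, if_true]
    abel
  · simp only [h, if_false]
    abel

/-- short edges of the placed points -/
noncomputable def cnt {ι : Type*} [Fintype ι] (x : Fin n → ℝ × ℝ) (A : ι → Finset (Fin n)) (S B : Finset (Fin n))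
    (k : ℕ) (D : ℝ) (v : ι → ℝ × ℝ) : ℝ≥0∞ :=
  ∑ p ∈ B ×ˢ S, ind (IsEdge (place x A v) k p.1 p.2 ∧ |(place x A v p.2).1 - (place x A v p.1).1| ≤ D ∧
    |(place x A v p.2).2 - (place x A v p.1).2| ≤ D)

theorem measurable_cnt {ι : Type*} [Fintype ι] (x : Fin n → ℝ × ℝ) (A : ι → Finset (Fin n)) (S B : Finset (Fin n))
    (k : ℕ) (D : ℝ) : Measurable (cnt x A S B k D) := by
  have hm := measurable_place x A
  refine Finset.measurable_fun_sum _ fun p _ => ?_
  have h1 := ((hm p.2).fst.sub (hm p.1).fst).abs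
  have h2 := ((hm p.2).snd.sub (hm p.1).snd).abs
  exact measurable_ind ((measurableSet_isEdge hm k p.1 p.2).inter
    ((measurableSet_le h1 (measurable_const (a := D))).inter
      (measurableSet_le h2 (measurable_const (a := D)))))

/-- Fubini: an upper bound for the integral over one variable suffices. -/
theorem lintegral_le_of_update {ι : Type*} [Fintype ι] [DecidableEq ι] (ν : ι → Measure (ℝ × ℝ))
    [∀ t, IsProbabilityMeasure (ν t)] (t : ι) {f : (ι → ℝ × ℝ) → ℝ≥0∞} (hf : Measurable f) (C : ℝ≥0∞)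
    (h : ∀ v, ∫⁻ z, f (Function.update v t z) ∂ν t ≤ C) : ∫⁻ v, f v ∂Measure.pi ν ≤ C := by
  have h1 := lintegral_le_of_lmarginal_le (μ := ν) {t} hf (measurable_const (a := C)) ?_
  · simpa using h1
  · rw [lmarginal_singleton, lmarginal_singleton]
    intro v
    simpa using h v

theorem lintegral_cnt {ι : Type*} [Fintype ι] (x : Fin n → ℝ × ℝ) (A : ι → Finset (Fin n)) (B : Finset (Fin n))
    (ν : ι → Measure (ℝ × ℝ)) [∀ t, IsProbabilityMeasure (ν t)] (t : ι) (hAB : Disjoint B (A t)) (k : ℕ)
    {D r κ : ℝ} (hD : 0 ≤ D) (hr : 0 < r) (hκ : 0 ≤ κ) (hν : ν t ≤ ENNReal.ofReal (κ / r ^ 2) • volume)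
    (hs : ∀ᵐ z ∂ν t, |z.1| ≤ r ∧ |z.2| ≤ r) :
    ∫⁻ v, cnt x A (A t) B k D v ∂Measure.pi ν ≤
      ENNReal.ofReal (16 * κ * (D / r) * (min #(A t) #B : ℕ)) := by
  classical
  refine lintegral_le_of_update ν t (measurable_cnt x A (A t) B k D) _ fun v => ?_
  have e : ∀ z, place x A (Function.update v t z) =
      shift (place x A (Function.update v t 0)) (A t) z := fun z => funext fun l => place_update x A v t z l
  refine le_trans (le_of_eq (lintegral_congr fun z => ?_))
    (lintegral_core (place x A (Function.update v t 0)) (A t) B hAB k hD hr hκ (ν t) hν hs)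
  rw [cnt, e z]
  rfl

theorem between_le {ι : Type*} [Fintype ι] (x : Fin n → ℝ × ℝ) (A : ι → Finset (Fin n)) (S B : Finset (Fin n))
    (k : ℕ) (D : ℝ) (v : ι → ℝ × ℝ)
    (h : ∀ i ∈ B, ∀ j ∈ S, |(place x A v i).1 - (place x A v j).1| ≤ D ∧
      |(place x A v i).2 - (place x A v j).2| ≤ D) :
    (between (place x A v) k S B : ℝ≥0∞) ≤ cnt x A S B k D v + cnt x A S B (n - 2 - k) D v := by
  classical
  have h1 : between (place x A v) k S B ≤
      #{p ∈ B ×ˢ S | IsEdge (place x A v) k p.1 p.2} +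
        #{p ∈ B ×ˢ S | IsEdge (place x A v) (n - 2 - k) p.1 p.2} := by
    have hsub : univ.filter (fun p : Fin n × Fin n => ((p.1 ∈ S ∧ p.2 ∈ B) ∨ (p.1 ∈ B ∧ p.2 ∈ S)) ∧
        IsEdge (place x A v) k p.1 p.2) ⊆
        (B ×ˢ S).filter (fun p => IsEdge (place x A v) k p.1 p.2) ∪
          ((B ×ˢ S).filter fun p => IsEdge (place x A v) (n - 2 - k) p.1 p.2).image Prod.swap := by
      rintro ⟨i, j⟩ hp
      simp only [mem_filter, mem_univ, true_and, mem_union, mem_product, mem_image, Prod.exists] at hp ⊢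
      rcases hp with ⟨hp | hp, he⟩
      · right
        exact ⟨j, i, ⟨⟨hp.2, hp.1⟩, (isEdge_rev he).2⟩, rfl⟩
      · left
        exact ⟨hp, he⟩
    have := (card_le_card hsub).trans (card_union_le _ _)
    refine (le_trans ?_ this).trans (Nat.add_le_add_left card_image_le _)
    unfold between
    exact le_of_eq (by congr)
  have h2 : ∀ k', (#{p ∈ B ×ˢ S | IsEdge (place x A v) k' p.1 p.2} : ℝ≥0∞) ≤ cnt x A S B k' D v := by
    intro k'
    rw [cnt, ← sum_ind_le]
    refine sum_le_sum fun p hp => ind_mono fun he => ⟨he, ?_⟩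
    rw [mem_product] at hp
    obtain ⟨h3, h4⟩ := h _ hp.1 _ hp.2
    exact ⟨by rwa [abs_sub_comm], by rwa [abs_sub_comm]⟩
  calc (between (place x A v) k S B : ℝ≥0∞) ≤ ((#{p ∈ B ×ˢ S | IsEdge (place x A v) k p.1 p.2} +
        #{p ∈ B ×ˢ S | IsEdge (place x A v) (n - 2 - k) p.1 p.2} : ℕ) : ℝ≥0∞) := Nat.cast_le.2 h1
    _ ≤ _ := by
        push_cast
        exact add_le_add (h2 k) (h2 _)

/-- **One randomly translated set.** -/
theorem lintegral_between {ι : Type*} [Fintype ι] (x : Fin n → ℝ × ℝ) (A : ι → Finset (Fin n))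
    (B : Finset (Fin n)) (ν : ι → Measure (ℝ × ℝ)) [∀ t, IsProbabilityMeasure (ν t)] (t : ι)
    (hAB : Disjoint B (A t)) (k : ℕ) {D r κ : ℝ} (hD : 0 ≤ D) (hr : 0 < r) (hκ : 0 ≤ κ)
    (hν : ν t ≤ ENNReal.ofReal (κ / r ^ 2) • volume) (hs : ∀ᵐ z ∂ν t, |z.1| ≤ r ∧ |z.2| ≤ r)
    (hd : ∀ᵐ v ∂Measure.pi ν, ∀ i ∈ B, ∀ j ∈ A t, |(place x A v i).1 - (place x A v j).1| ≤ D ∧
      |(place x A v i).2 - (place x A v j).2| ≤ D) :
    ∫⁻ v, (between (place x A v) k (A t) B : ℝ≥0∞) ∂Measure.pi ν ≤
      ENNReal.ofReal (32 * κ * (D / r) * (min #(A t) #B : ℕ)) := by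
  calc ∫⁻ v, (between (place x A v) k (A t) B : ℝ≥0∞) ∂Measure.pi ν
      ≤ ∫⁻ v, (cnt x A (A t) B k D v + cnt x A (A t) B (n - 2 - k) D v) ∂Measure.pi ν := by
        refine lintegral_mono_ae ?_
        filter_upwards [hd] with v hv using between_le x A (A t) B k D v hv
    _ = ∫⁻ v, cnt x A (A t) B k D v ∂Measure.pi ν + ∫⁻ v, cnt x A (A t) B (n - 2 - k) D v ∂Measure.pi ν :=
        lintegral_add_left (measurable_cnt x A (A t) B k D) _
    _ ≤ ENNReal.ofReal (16 * κ * (D / r) * (min #(A t) #B : ℕ)) +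
        ENNReal.ofReal (16 * κ * (D / r) * (min #(A t) #B : ℕ)) :=
        add_le_add (lintegral_cnt x A B ν t hAB k hD hr hκ hν hs)
          (lintegral_cnt x A B ν t hAB (n - 2 - k) hD hr hκ hν hs)
    _ = ENNReal.ofReal (32 * κ * (D / r) * (min #(A t) #B : ℕ)) := by
        rw [← ENNReal.ofReal_add (by positivity) (by positivity)]
        congr 1
        ring

/-! ### General position -/

theorem volume_line_zero {a b c : ℝ} (hab : a ≠ 0 ∨ b ≠ 0) :
    volume {z : ℝ × ℝ | a * z.1 + b * z.2 = c} = 0 := by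
  have hm : MeasurableSet {z : ℝ × ℝ | a * z.1 + b * z.2 = c} :=
    measurableSet_eq_fun (by fun_prop) measurable_const
  by_cases hb : b = 0
  · have ha : a ≠ 0 := by tauto
    have : {z : ℝ × ℝ | a * z.1 + b * z.2 = c} = {c / a} ×ˢ Set.univ := by
      ext z
      simp only [Set.mem_ofPred_eq, hb, zero_mul, add_zero, Set.mem_prod, Set.mem_singleton_iff,
        Set.mem_univ, and_true]
      rw [eq_div_iff ha, mul_comm]
    rw [this, Measure.volume_eq_prod, Measure.prod_prod]
    simp
  · rw [Measure.volume_eq_prod, Measure.measure_prod_null (by exact hm)]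
    refine Filter.Eventually.of_forall fun u => ?_
    have : Prod.mk u ⁻¹' {z : ℝ × ℝ | a * z.1 + b * z.2 = c} = {(c - a * u) / b} := by
      ext w
      simp only [Set.mem_preimage, Set.mem_ofPred_eq, Set.mem_singleton_iff]
      rw [eq_div_iff hb]
      constructor <;> intro h <;> linarith
    simp only [Pi.zero_apply]
    rw [this]
    simp

theorem ae_of_update {ι : Type*} [Fintype ι] [DecidableEq ι] (ν : ι → Measure (ℝ × ℝ))
    [∀ t, IsProbabilityMeasure (ν t)] (t : ι) (hν : ν t ≪ volume) {P : (ι → ℝ × ℝ) → Prop}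
    (hP : MeasurableSet {v | P v}) (h : ∀ v, volume {z | ¬ P (Function.update v t z)} = 0) :
    ∀ᵐ v ∂Measure.pi ν, P v := by
  have h1 : ∫⁻ v, ind (¬ P v) ∂Measure.pi ν ≤ 0 := by
    refine lintegral_le_of_update ν t (measurable_ind (P := fun v => ¬ P v) hP.compl) 0 fun v => ?_
    have h2 : ν t {z | ¬ P (Function.update v t z)} = 0 := hν (h v)
    have h3 : ∀ᵐ z ∂ν t, P (Function.update v t z) := h2
    rw [lintegral_congr_ae (g := fun _ => 0)]
    · simp
    · filter_upwards [h3] with z hz using ind_of_not (by simpa using hz)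
  have h2 := (lintegral_eq_zero_iff (measurable_ind (P := fun v => ¬ P v) hP.compl)).1
    (le_antisymm h1 zero_le)
  filter_upwards [h2] with v hv
  by_contra hc
  simp only [ind, hc, not_false_eq_true, if_true, Pi.zero_apply, one_ne_zero] at hv

/-- Two points that are separated by a moving set are distinct. -/
theorem ae_ne {ι : Type*} [Fintype ι] (x : Fin n → ℝ × ℝ) (A : ι → Finset (Fin n)) (ν : ι → Measure (ℝ × ℝ))
    [∀ t, IsProbabilityMeasure (ν t)] (t : ι) (hν : ν t ≪ volume) {i j : Fin n} (hi : i ∉ A t)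
    (hj : j ∈ A t) : ∀ᵐ v ∂Measure.pi ν, place x A v i ≠ place x A v j := by
  classical
  have hm := measurable_place x A
  refine ae_of_update ν t hν (measurableSet_eq_fun (hm i) (hm j)).compl fun v => ?_
  refine measure_mono_null (t := {place x A (Function.update v t 0) i -
    place x A (Function.update v t 0) j}) (fun z hz => ?_) (by simp)
  simp only [ne_eq, not_not, Set.mem_ofPred_eq, place_update x A v t z, shift, hi, hj, if_false,
    if_true, add_zero] at hz
  rw [Set.mem_singleton_iff, hz]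
  abel

/-- A moving point is not on the line through two fixed points. -/
theorem ae_orient {ι : Type*} [Fintype ι] (x : Fin n → ℝ × ℝ) (A : ι → Finset (Fin n))
    (ν : ι → Measure (ℝ × ℝ)) [∀ t, IsProbabilityMeasure (ν t)] (t : ι) (hν : ν t ≪ volume)
    {i j l : Fin n} (hi : i ∉ A t) (hj : j ∉ A t) (hl : l ∈ A t) :
    ∀ᵐ v ∂Measure.pi ν, place x A v i ≠ place x A v j →
      orient (place x A v i) (place x A v j) (place x A v l) ≠ 0 := by
  classical
  have hm := measurable_place x A
  have hms : MeasurableSet {v : ι → ℝ × ℝ | place x A v i ≠ place x A v j →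
      orient (place x A v i) (place x A v j) (place x A v l) ≠ 0} := by
    have e : {v : ι → ℝ × ℝ | place x A v i ≠ place x A v j →
        orient (place x A v i) (place x A v j) (place x A v l) ≠ 0} =
        {v | place x A v i = place x A v j} ∪
          {v | orient (place x A v i) (place x A v j) (place x A v l) = 0}ᶜ := by
      ext v
      simp only [Set.mem_ofPred_eq, Set.mem_union, Set.mem_compl_iff]
      tauto
    rw [e]
    exact (measurableSet_eq_fun (hm i) (hm j)).union
      (measurableSet_eq_fun (measurable_orient (hm i) (hm j) (hm l)) measurable_const).compl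
  refine ae_of_update ν t hν hms fun v => ?_
  set p := place x A (Function.update v t 0) i with hp
  set q := place x A (Function.update v t 0) j with hq
  set s := place x A (Function.update v t 0) l with hs'
  by_cases hpq : p = q
  · have : {z : ℝ × ℝ | ¬ (place x A (Function.update v t z) i ≠ place x A (Function.update v t z) j →
        orient (place x A (Function.update v t z) i) (place x A (Function.update v t z) j)
          (place x A (Function.update v t z) l) ≠ 0)} = ∅ := by
      ext z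
      simp only [Set.mem_ofPred_eq, place_update x A v t z, shift, hi, hj, if_false, add_zero, ← hp,
        ← hq, hpq, ne_eq, not_true_eq_false, false_imp_iff, not_true_eq_false,
        Set.mem_empty_iff_false]
    rw [this]
    simp
  · refine measure_mono_null (t := {z : ℝ × ℝ | -(q.2 - p.2) * z.1 + (q.1 - p.1) * z.2 =
      -orient p q s}) (fun z hz => ?_) (volume_line_zero ?_)
    · simp only [Set.mem_ofPred_eq, place_update x A v t z, shift, hi, hj, hl, if_false, if_true,
        add_zero, ← hp, ← hq, ← hs', Classical.not_imp, not_not, ne_eq] at hz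
      have h2 := hz.2
      simp only [orient, Prod.fst_add, Prod.snd_add] at h2
      simp only [Set.mem_ofPred_eq, orient]
      linarith
    · by_contra hc
      push Not at hc
      exact hpq (Prod.ext (by linarith [hc.2]) (by linarith [hc.1]))

/-! ### Bisectors -/

open KLev.Halving

theorem orient_line {a b c : ℝ} (hab : a ≠ 0 ∨ b ≠ 0) {p q : ℝ × ℝ} (hpq : p ≠ q) (hp : p ∈ Line a b c)
    (hq : q ∈ Line a b c) : ∃ lam : ℝ, lam ≠ 0 ∧ ∀ s : ℝ × ℝ, orient p q s =
      lam * (a * s.1 + b * s.2 - c) := by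
  simp only [Line, Set.mem_ofPred_eq] at hp hq
  have hdet : a * (q.1 - p.1) = -b * (q.2 - p.2) := by linarith
  rcases hab with ha | hb
  · refine ⟨-(q.2 - p.2) / a, ?_, fun s => ?_⟩
    · intro h0
      rw [div_eq_zero_iff] at h0
      rcases h0 with h0 | h0
      · have h1 : q.2 - p.2 = 0 := by linarith
        rw [h1, mul_zero] at hdet
        rcases mul_eq_zero.1 hdet with h2 | h2
        · exact ha h2
        · exact hpq (Prod.ext (by linarith) (by linarith))
      · exact ha h0
    · rw [orient, div_mul_eq_mul_div, eq_div_iff ha, ← hp]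
      linear_combination (s.2 - p.2) * hdet
  · refine ⟨(q.1 - p.1) / b, ?_, fun s => ?_⟩
    · intro h0
      rw [div_eq_zero_iff] at h0
      rcases h0 with h0 | h0
      · have h3 : -b * (q.2 - p.2) = 0 := by rw [← hdet, h0, mul_zero]
        rcases mul_eq_zero.1 h3 with h2 | h2
        · exact hb (by linarith)
        · exact hpq (Prod.ext (by linarith) (by linarith))
      · exact hb h0
    · rw [orient, div_mul_eq_mul_div, eq_div_iff hb, ← hp]
      linear_combination -(s.1 - p.1) * hdet

theorem isEdge_of_bisector {X : Fin n → ℝ × ℝ} (hX : Function.Injective X) (hn : Even n) {L : Set (ℝ × ℝ)}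
    (hL : IsBisector (univ.image X) L) {i j : Fin n} (hij : i ≠ j) (hi : X i ∈ L) (hj : X j ∈ L) :
    IsEdge X (n / 2 - 1) i j := by
  classical
  obtain ⟨a, b, c, hab, rfl, -, h1, h2⟩ := hL
  have hne : X i ≠ X j := fun h => hij (hX h)
  obtain ⟨lam, hlam, ho⟩ := orient_line hab hne hi hj
  have hc : #(univ.image X) = n := by
    rw [card_image_of_injective _ hX, card_univ, Fintype.card_fin]
  rw [hc] at h1 h2
  have h1' : #{l | a * (X l).1 + b * (X l).2 < c} = n / 2 - 1 := by
    rw [← h1, filter_image, card_image_of_injective _ hX]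
  have h2' : #{l | c < a * (X l).1 + b * (X l).2} = n / 2 - 1 := by
    rw [← h2, filter_image, card_image_of_injective _ hX]
  have hn2 : 2 ≤ n := by
    have := i.2
    have := j.2
    by_contra hlt
    exact hij (Fin.ext (by omega))
  have e1 : ∀ l, 0 < lam → ((0 < orient (X i) (X j) (X l) ↔ c < a * (X l).1 + b * (X l).2) ∧
      (orient (X i) (X j) (X l) < 0 ↔ a * (X l).1 + b * (X l).2 < c)) := by
    intro l hp
    rw [ho, mul_pos_iff_of_pos_left hp, mul_neg_iff]
    constructor
    · exact sub_pos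
    · simp only [hp, not_lt.2 hp.le, false_and, or_false, true_and, sub_neg]
  have e2 : ∀ l, lam < 0 → ((0 < orient (X i) (X j) (X l) ↔ a * (X l).1 + b * (X l).2 < c) ∧
      (orient (X i) (X j) (X l) < 0 ↔ c < a * (X l).1 + b * (X l).2)) := by
    intro l hp
    rw [ho, mul_pos_iff, mul_neg_iff]
    simp only [hp, not_lt.2 hp.le, false_and, false_or, true_and, sub_neg, sub_pos]
  obtain ⟨m, hm⟩ := hn
  refine ⟨hne, ?_, ?_⟩
  · rcases lt_or_gt_of_ne hlam with hneg | hpos
    · rw [← h1']
      congr 1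
      ext l
      simp only [mem_filter, mem_univ, true_and, (e2 l hneg).1]
    · rw [← h2']
      congr 1
      ext l
      simp only [mem_filter, mem_univ, true_and, (e1 l hpos).1]
  · have : #{l | orient (X i) (X j) (X l) < 0} = n / 2 - 1 := by
      rcases lt_or_gt_of_ne hlam with hneg | hpos
      · rw [← h2']
        congr 1
        ext l
        simp only [mem_filter, mem_univ, true_and, (e2 l hneg).2]
      · rw [← h1']
        congr 1
        ext l
        simp only [mem_filter, mem_univ, true_and, (e1 l hpos).2]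
    omega

open Classical in
theorem two_mul_bisectors_le {X : Fin n → ℝ × ℝ} (hX : Function.Injective X) (hn : Even n)
    (R : Fin n → Fin n → Prop) (hR : ∀ i j, R i j → R j i) (hRne : ∀ i j, R i j → i ≠ j) :
    2 * {L | IsBisector (univ.image X) L ∧ ∃ i j, R i j ∧ X i ∈ L ∧ X j ∈ L}.ncard ≤
      #{p : Fin n × Fin n | R p.1 p.2 ∧ IsEdge X (n / 2 - 1) p.1 p.2} := by
  set 𝓛 : Set (Set (ℝ × ℝ)) := {L | IsBisector (univ.image X) L ∧ ∃ i j, R i j ∧ X i ∈ L ∧ X j ∈ L}
    with h𝓛
  have hfin : 𝓛.Finite := (bisectors_finite (univ.image X)).subset fun L hL => hL.1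
  set E : Finset (Fin n × Fin n) := {p | R p.1 p.2 ∧ IsEdge X (n / 2 - 1) p.1 p.2} with hE
  set φ : Fin n × Fin n → Set (ℝ × ℝ) := fun p => {s | orient (X p.1) (X p.2) s = 0} with hφ
  rw [Set.ncard_eq_toFinset_card 𝓛 hfin]
  have key : 2 * hfin.toFinset.card ≤ #{p ∈ E | φ p ∈ hfin.toFinset} := by
    refine mul_card_image_le_card_of_maps_to (f := φ) (fun p hp => (mem_filter.1 hp).2) 2 ?_
    intro L hL
    have hL' := hL
    rw [Set.Finite.mem_toFinset] at hL'
    obtain ⟨hb, i, j, hij, hi, hj⟩ := hL'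
    have hne := hRne i j hij
    have hline : ∀ {i j : Fin n}, i ≠ j → X i ∈ L → X j ∈ L → φ (i, j) = L := by
      intro i j hne hi hj
      obtain ⟨a, b, c, hab, rfl, -⟩ := hb
      obtain ⟨lam, hlam, ho⟩ := orient_line hab (fun h => hne (hX h)) hi hj
      ext s
      simp only [hφ, Set.mem_ofPred_eq, ho, Line, mul_eq_zero, hlam, false_or, sub_eq_zero]
    have h1 : (i, j) ∈ {p ∈ {p ∈ E | φ p ∈ hfin.toFinset} | φ p = L} := by
      rw [mem_filter, mem_filter, hline hne hi hj]
      exact ⟨⟨mem_filter.2 ⟨mem_univ _, hij, isEdge_of_bisector hX hn hb hne hi hj⟩, hL⟩, rfl⟩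
    have h2 : (j, i) ∈ {p ∈ {p ∈ E | φ p ∈ hfin.toFinset} | φ p = L} := by
      rw [mem_filter, mem_filter, hline hne.symm hj hi]
      exact ⟨⟨mem_filter.2 ⟨mem_univ _, hR _ _ hij, isEdge_of_bisector hX hn hb hne.symm hj hi⟩, hL⟩, rfl⟩
    exact one_lt_card.2 ⟨(i, j), h1, (j, i), h2, fun h => hne (congrArg Prod.fst h)⟩
  exact key.trans (card_le_card (filter_subset _ _))

end Pool.Agent.H56.RP
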